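import Pool.Agent.Helper93.T53.StD

/-!
# Project T53 (levels `5·3^n`), module LDP: values at `{0, ∞}` of the last operators

The operator lemmas are adapted from `Pool/Agent/Helper94/TH3/M_LdA.lean` and `Pool/Agent/Helper7/W3/M_Ld.lean`.
-/

set_option autoImplicit false
set_option linter.unusedSimpArgs false
set_option linter.unusedVariables false

namespace Pool.Agent.Helper45.T53

open Pool.Agent.Helper14.CV (Homog EqC act Tl StFar StFex)
open Pool.Agent.Helper28.WK (Tw evw)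
open Pool.Agent.Helper78.W3 (tr Fn3 Tm opL op3 mulT mulL negL Wd3 dX dY oD oN Lw sS M5 bb3 S3PlA S3Trm S3Low0 S3Nf S3Exp S3Lw1 S3Bb)
open Pool.Agent.Helper28.T5 (HTy SymH)
open Pool.Agent.Helper83.T5C (SHHk SHHkS LBH)
open Pool.Agent.Helper93.TLE (DDE)
open Pool.Agent.Helper93.T53

section lists

variable {q q' : ℕ}

private lemma opL_nil : (opL [] : Module.End (ZMod 3) (Fn3 q q')) = 0 := by simp [opL]

private lemma opL_cons (t : Tm) (L : List Tm) : (opL (t :: L) : Module.End (ZMod 3) (Fn3 q q')) =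
    ((t.1 : ℤ) : ZMod 3) • op3 t.2.1 t.2.2.1 t.2.2.2.1 t.2.2.2.2 + opL L := by simp [opL]

private lemma opL_app (L L' : List Tm) :
    (opL (L ++ L') : Module.End (ZMod 3) (Fn3 q q')) = opL L + opL L' := by simp [opL]

private lemma opL_sc (n : ℤ) (L : List Tm) :
    (opL (scT n L) : Module.End (ZMod 3) (Fn3 q q')) = ((n : ℤ) : ZMod 3) • opL L := by
  induction L with
  | nil => simp [scT, opL_nil]
  | cons t L ih =>
    have h : scT n (t :: L) = (n * t.1, t.2) :: scT n L := rfl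
    rw [h, opL_cons, opL_cons, ih, smul_add, smul_smul]
    push_cast
    rfl

end lists

private lemma gd_app {L L' : List Tm} (h : ∀ t ∈ L, GdT t) (h' : ∀ t ∈ L', GdT t) : ∀ t ∈ L ++ L', GdT t := by
  intro t ht
  rcases List.mem_append.1 ht with h1 | h1
  · exact h t h1
  · exact h' t h1

private lemma gd_sc (n : ℤ) {L : List Tm} (h : ∀ t ∈ L, GdT t) : ∀ t ∈ scT n L, GdT t := by
  intro t ht
  obtain ⟨u, hu, rfl⟩ := List.mem_map.1 ht
  exact h u hu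

private lemma nd3 (x y z : ℤ) (hx : ¬ (3 : ℤ) ∣ x) (hy : ¬ (3 : ℤ) ∣ y) (hz : (3 : ℤ) ∣ z) :
    ¬ (3 : ℤ) ∣ x * y + z := by
  intro hd
  have h1 : (3 : ℤ) ∣ x * y := by
    have := dvd_sub hd hz
    simpa using this
  rcases Int.prime_three.dvd_or_dvd h1 with h | h
  · exact hx h
  · exact hy h

private lemma gd_mulT {t t' : Tm} (h : GdT t) (h' : GdT t') : GdT (mulT t t') := by
  obtain ⟨a, b⟩ := h
  obtain ⟨a', b'⟩ := h'
  refine ⟨?_, ?_⟩
  · exact nd3 _ _ (9 * t.2.2.1 * t'.2.2.2.1) a a' ⟨3 * t.2.2.1 * t'.2.2.2.1, by ring⟩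
  · have := nd3 _ _ (9 * t.2.2.2.1 * t'.2.2.1) b b' ⟨3 * t.2.2.2.1 * t'.2.2.1, by ring⟩
    rw [add_comm] at this
    exact this

private lemma gd_mulL {L L' : List Tm} (h : ∀ t ∈ L, GdT t) (h' : ∀ t ∈ L', GdT t) :
    ∀ t ∈ mulL L L', GdT t := by
  intro t ht
  unfold mulL at ht
  obtain ⟨u, hu, hu'⟩ := List.mem_flatMap.1 ht
  obtain ⟨v, hv, rfl⟩ := List.mem_map.1 hu'
  exact gd_mulT (h u hu) (h' v hv)

private lemma gd_id (n : ℤ) (i f : Fin 9) : ∀ t ∈ idT n i f, GdT t := by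
  intro t ht
  unfold idT at ht
  split_ifs at ht
  · rw [List.mem_singleton] at ht
    subst ht
    exact ⟨by norm_num, by norm_num⟩
  · simp at ht

private lemma gd_PLT (hg : TCeG) (c : Fin 6) (i f : Fin 9) : ∀ t ∈ PLT c i f, GdT t := by
  obtain ⟨a2, a7, a11, a13, a17, a19, a23⟩ := hg.1 i f
  match c with
  | 0 => exact gd_app (gd_app (gd_app (gd_app a19 a11) a7) (gd_sc (-1) a2)) (gd_id (-1) i f)
  | 1 => exact gd_app (gd_app a7 (gd_id 1 i f)) (gd_sc (-1) a2)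
  | 2 => exact a23
  | 3 => exact gd_app (gd_app a19 a17) (gd_id 1 i f)
  | 4 => exact gd_id 1 i f
  | 5 => exact a2

private lemma gd_BPT (hg : TCeG) (c : Fin 6) (f : Fin 9) : ∀ t ∈ BPT c f, GdT t := by
  have ap : ∀ i, ∀ t ∈ PLT c i f, GdT t := fun i => gd_PLT hg c i f
  have ar : ∀ ρ f, ∀ t ∈ relT ρ f, GdT t := hg.2.1
  have am : ∀ ρ, ∀ t ∈ mPT c ρ, GdT t := fun ρ => hg.2.2.2 c ρ
  unfold BPT evL rmT
  exact gd_app (gd_app (gd_app (gd_app (gd_app (ap 0) (gd_sc _ (ap 1))) (gd_sc _ (ap 2))) (gd_sc _ (ap 4)))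
    (gd_sc _ (ap 5))) (gd_sc _ (gd_app (gd_app (gd_app (gd_app (gd_mulL (am 0) (ar 0 f))
    (gd_mulL (am 1) (ar 1 f))) (gd_mulL (am 2) (ar 2 f))) (gd_mulL (am 3) (ar 3 f))) (gd_mulL (am 4) (ar 4 f))))

section ops

variable {r s : ℕ}

private lemma op3_mul (hTrm : S3Trm) (a b c d a' b' c' d' : ℤ) (ha : ¬ 3 ∣ a) (hd : ¬ 3 ∣ d) (ha' : ¬ 3 ∣ a')
    (hd' : ¬ 3 ∣ d') : (op3 a b c d * op3 a' b' c' d' : Module.End (ZMod 3) (Fn3 (3 ^ r) (3 ^ s))) =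
      op3 (a * a' + 9 * b * c') (a * b' + b * d') (c * a' + d * c') (9 * c * b' + d * d') := by
  refine LinearMap.ext fun F => ?_
  exact (hTrm (ZMod 3) r s F).1 a b c d a' b' c' d' ha hd ha' hd'

private lemma opL_map (hTrm : S3Trm) (t : Tm) (ht : GdT t) (L : List Tm)
    (hL : ∀ t ∈ L, GdT t) : (opL (L.map fun t' => mulT t t') : Module.End (ZMod 3) (Fn3 (3 ^ r) (3 ^ s))) =
      (((t.1 : ℤ) : ZMod 3) • op3 t.2.1 t.2.2.1 t.2.2.2.1 t.2.2.2.2) * opL L := by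
  induction L with
  | nil => simp [opL_nil]
  | cons t' L ih =>
    have h1 := hL t' List.mem_cons_self
    rw [List.map_cons, opL_cons, opL_cons, ih fun x hx => hL x (List.mem_cons_of_mem _ hx), mul_add]
    congr 1
    rw [smul_mul_smul_comm, op3_mul hTrm _ _ _ _ _ _ _ _ ht.1 ht.2 h1.1 h1.2]
    unfold mulT
    push_cast
    rfl

private lemma opL_mul (hTrm : S3Trm) (L L' : List Tm) (hL : ∀ t ∈ L, GdT t) (hL' : ∀ t ∈ L', GdT t) :
    (opL (mulL L L') : Module.End (ZMod 3) (Fn3 (3 ^ r) (3 ^ s))) = opL L * opL L' := by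
  induction L with
  | nil => simp [mulL, opL_nil]
  | cons t L ih =>
    have h : mulL (t :: L) L' = (L'.map fun t' => mulT t t') ++ mulL L L' := by
      unfold mulL
      rw [List.flatMap_cons]
    rw [h, opL_app, opL_map hTrm t (hL t List.mem_cons_self) L' hL', opL_cons, add_mul,
      ih fun x hx => hL x (List.mem_cons_of_mem _ hx)]

/-- Multiples of the relations vanish. -/
private lemma rm_zero (hTrm : S3Trm) (hr : TRll) (hg : TCeG) (F : Fin 9 → Fn3 (3 ^ r) (3 ^ s)) (h : RelT F)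
    (M : Fin 5 → List Tm) (hM : ∀ ρ, ∀ t ∈ M ρ, GdT t) :
    ∑ f : Fin 9, opL (rmT M f) (F f) = 0 := by
  have ar : ∀ ρ f, ∀ t ∈ relT ρ f, GdT t := hg.2.1
  have h1 : ∀ f, opL (rmT M f) (F f) = opL (M 0) (opL (relT 0 f) (F f)) +
      opL (M 1) (opL (relT 1 f) (F f)) + opL (M 2) (opL (relT 2 f) (F f)) +
      opL (M 3) (opL (relT 3 f) (F f)) + opL (M 4) (opL (relT 4 f) (F f)) := by
    intro f
    unfold rmT
    rw [opL_app, opL_app, opL_app, opL_app, opL_mul hTrm _ _ (hM 0) (ar 0 f), opL_mul hTrm _ _ (hM 1) (ar 1 f),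
      opL_mul hTrm _ _ (hM 2) (ar 2 f), opL_mul hTrm _ _ (hM 3) (ar 3 f), opL_mul hTrm _ _ (hM 4) (ar 4 f)]
    rfl
  rw [Finset.sum_congr rfl fun f _ => h1 f, Finset.sum_add_distrib, Finset.sum_add_distrib,
    Finset.sum_add_distrib, Finset.sum_add_distrib, ← map_sum, ← map_sum, ← map_sum, ← map_sum, ← map_sum,
    hr r s F h 0, hr r s F h 1, hr r s F h 2, hr r s F h 3, hr r s F h 4, map_zero, map_zero, map_zero,
    map_zero, map_zero, add_zero, add_zero, add_zero, add_zero]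

private lemma sum_BPT (hTrm : S3Trm) (hr : TRll) (hg : TCeG) (F : Fin 9 → Fn3 (3 ^ r) (3 ^ s)) (h : RelT F)
    (c : Fin 6) : ∑ f : Fin 9, opL (evL (PLT c) f) (F f) = ∑ f : Fin 9, opL (BPT c f) (F f) := by
  have e : ∀ f, opL (BPT c f) (F f) = opL (evL (PLT c) f) (F f) +
      ((-1 : ℤ) : ZMod 3) • opL (rmT (mPT c) f) (F f) := by
    intro f
    unfold BPT
    rw [opL_app, opL_sc]
    rfl
  rw [Finset.sum_congr rfl fun f _ => e f, Finset.sum_add_distrib, ← Finset.smul_sum,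
    rm_zero hTrm hr hg F h (mPT c) (fun ρ => hg.2.2.2 c ρ), smul_zero, add_zero]

/-- the monomials -/
private def mon (t : ℕ × ℕ × ℕ) : Module.End (ZMod 3) (Fn3 (3 ^ r) (3 ^ s)) :=
  (oD - 1) ^ t.1 * dX ^ t.2.1 * dY ^ t.2.2

private lemma oD0 (H : Fn3 (3 ^ r) (3 ^ s)) :
    ((oD - 1 : Module.End (ZMod 3) (Fn3 (3 ^ r) (3 ^ s))) H) 0 0 = 0 := by
  change (tr 4 0 0 1 H) 0 0 - H 0 0 = 0
  unfold tr
  simp

private lemma mon_succ (n j k : ℕ) (H : Fn3 (3 ^ r) (3 ^ s)) :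
    ((mon (n + 1, j, k) : Module.End (ZMod 3) (Fn3 (3 ^ r) (3 ^ s))) H) 0 0 = 0 := by
  have e : (mon (n + 1, j, k) : Module.End (ZMod 3) (Fn3 (3 ^ r) (3 ^ s))) =
      (oD - 1) * ((oD - 1) ^ n * dX ^ j * dY ^ k) := by
    unfold mon
    rw [pow_succ', mul_assoc, mul_assoc, mul_assoc]
  rw [e]
  exact oD0 _

private lemma mon_zero (j k : ℕ) : (mon (0, j, k) : Module.End (ZMod 3) (Fn3 (3 ^ r) (3 ^ s))) =
    dX ^ j * dY ^ k := by
  unfold mon
  simp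

private lemma mon_big (a : ℕ) (H : Fn3 (3 ^ r) (3 ^ s)) (hH : H ∈ Wd3 (a : ℤ)) (j k : ℕ) (h : a < j + k) :
    ((mon (0, j, k) : Module.End (ZMod 3) (Fn3 (3 ^ r) (3 ^ s))) H) = 0 := by
  rw [mon_zero]
  exact hH j k (by exact_mod_cast h)

private lemma wd_neg (e : ℤ) (he : e < 0) (H : Fn3 (3 ^ r) (3 ^ s)) (hH : H ∈ Wd3 e) : H = 0 := by
  have := hH 0 0 (by push_cast; linarith)
  rw [pow_zero, pow_zero, mul_one] at this
  exact this

/-- The value of a list at the origin. -/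
private lemma val (hExp : S3Exp) (L : List Tm) (hL : ∀ t ∈ L, (t.2.1 * t.2.2.2.2) % 3 = 1) (a : ℕ) (ha : a ≤ 4)
    (H : Fn3 (3 ^ r) (3 ^ s)) (hH : H ∈ Wd3 (a : ℤ)) : (opL L H) 0 0 =
      ∑ t ∈ M5, ((sS L t.1 t.2.1 t.2.2 : ℤ) : ZMod 3) * (mon t H) 0 0 := by
  have h0 := hExp r s L hL (a : ℤ) H hH
  have h1 := wd_neg _ (by omega) _ h0
  rw [LinearMap.sub_apply, sub_eq_zero] at h1
  rw [h1, LinearMap.sum_apply, Finset.sum_apply, Finset.sum_apply]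
  exact Finset.sum_congr rfl fun t _ => rfl

private lemma cast3 {S C : ℤ} (h : (3 : ℤ) ∣ S - C) : (S : ZMod 3) = (C : ZMod 3) := by
  have h1 := (ZMod.intCast_zmod_eq_zero_iff_dvd (S - C) 3).2 (by exact_mod_cast h)
  push_cast at h1
  exact sub_eq_zero.1 h1

end ops

/-- The monomials of the forms. -/
private def Sp (c : ℕ) : Finset (ℕ × ℕ × ℕ) :=
  if c = 0 then {(0, 2, 0), (0, 1, 1), (0, 0, 2)}
  else if c = 1 ∨ c = 2 then {(0, 1, 0), (0, 0, 1)}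
  else if c = 3 then {(0, 3, 0), (0, 2, 1), (0, 1, 2), (0, 0, 3)}
  else {(0, 0, 0)}

private lemma sp_sub : ∀ c : Fin 6, Sp c.val ⊆ M5 := by decide +kernel

private lemma sp_zero : ∀ c : Fin 6, ∀ f : Fin 9, ∀ t ∈ M5, t ∉ Sp c.val → t.1 = 0 →
    phC c.val f.val t.2.1 t.2.2 = 0 := by decide +kernel

private lemma sum9 {R : Type} [AddCommMonoid R] (g : Fin 9 → R) :
    ∑ f : Fin 9, g f = g 0 + g 1 + g 2 + g 3 + g 4 + g 5 + g 6 + g 7 + g 8 := by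
  rw [Fin.sum_univ_castSucc, Fin.sum_univ_eight]
  rfl

section final

variable {r s : ℕ}

private lemma fin_all (c : Fin 6) (F : Fin 9 → Fn3 (3 ^ r) (3 ^ s)) :
    ∑ f : Fin 9, ∑ t ∈ Sp c.val, ((phC c.val f.val t.2.1 t.2.2 : ℤ) : ZMod 3) * (mon t (F f)) 0 0 =
      (phT c.val F) 0 0 := by
  have m00 : (mon (0, 0, 0) : Module.End (ZMod 3) (Fn3 (3 ^ r) (3 ^ s))) = 1 := by rw [mon_zero]; simp
  have m10 : (mon (0, 1, 0) : Module.End (ZMod 3) (Fn3 (3 ^ r) (3 ^ s))) = dX := by rw [mon_zero]; simp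
  have m01 : (mon (0, 0, 1) : Module.End (ZMod 3) (Fn3 (3 ^ r) (3 ^ s))) = dY := by rw [mon_zero]; simp
  have m20 : (mon (0, 2, 0) : Module.End (ZMod 3) (Fn3 (3 ^ r) (3 ^ s))) = dX ^ 2 := by rw [mon_zero]; simp
  have m11 : (mon (0, 1, 1) : Module.End (ZMod 3) (Fn3 (3 ^ r) (3 ^ s))) = dX * dY := by rw [mon_zero]; simp
  have m02 : (mon (0, 0, 2) : Module.End (ZMod 3) (Fn3 (3 ^ r) (3 ^ s))) = dY ^ 2 := by rw [mon_zero]; simp
  have m30 : (mon (0, 3, 0) : Module.End (ZMod 3) (Fn3 (3 ^ r) (3 ^ s))) = dX ^ 3 := by rw [mon_zero]; simp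
  have m21 : (mon (0, 2, 1) : Module.End (ZMod 3) (Fn3 (3 ^ r) (3 ^ s))) = dX ^ 2 * dY := by rw [mon_zero]; simp
  have m12 : (mon (0, 1, 2) : Module.End (ZMod 3) (Fn3 (3 ^ r) (3 ^ s))) = dX * dY ^ 2 := by rw [mon_zero]; simp
  have m03 : (mon (0, 0, 3) : Module.End (ZMod 3) (Fn3 (3 ^ r) (3 ^ s))) = dY ^ 3 := by rw [mon_zero]; simp
  have m1 : (((-1 : ℤ)) : ZMod 3) = -1 := by push_cast; rfl
  match c with
  | 0 =>
    have hS : Sp (0 : Fin 6).val = {(0, 2, 0), (0, 1, 1), (0, 0, 2)} := rfl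
    have e : ∀ f : Fin 9, ∑ t ∈ Sp (0 : Fin 6).val, ((phC (0 : Fin 6).val f.val t.2.1 t.2.2 : ℤ) : ZMod 3) *
        ((mon t : Module.End (ZMod 3) (Fn3 (3 ^ r) (3 ^ s))) (F f)) 0 0 =
        ((phC 0 f.val 2 0 : ℤ) : ZMod 3) * ((dX ^ 2 : Module.End (ZMod 3) (Fn3 (3 ^ r) (3 ^ s))) (F f)) 0 0 +
        (((phC 0 f.val 1 1 : ℤ) : ZMod 3) * ((dX * dY : Module.End (ZMod 3) (Fn3 (3 ^ r) (3 ^ s))) (F f)) 0 0 +
        (((phC 0 f.val 0 2 : ℤ) : ZMod 3) * ((dY ^ 2 : Module.End (ZMod 3) (Fn3 (3 ^ r) (3 ^ s))) (F f)) 0 0)) := by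
      intro f
      rw [hS, Finset.sum_insert (by decide), Finset.sum_insert (by decide), Finset.sum_singleton, m20, m11, m02]
      rfl
    rw [Finset.sum_congr rfl fun f _ => e f, sum9]
    have hp : (phT (0 : Fin 6).val F) 0 0 = -((dX ^ 2 : Module.End (ZMod 3) (Fn3 (3 ^ r) (3 ^ s))) (F 0) 0 0) +
        (dX ^ 2 + dX * dY + dY ^ 2 : Module.End (ZMod 3) (Fn3 (3 ^ r) (3 ^ s))) (F 1 + F 4) 0 0 +
        (dX * dY - dY ^ 2 : Module.End (ZMod 3) (Fn3 (3 ^ r) (3 ^ s))) (F 2) 0 0 +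
        (dX ^ 2 - dX * dY + dY ^ 2 : Module.End (ZMod 3) (Fn3 (3 ^ r) (3 ^ s))) (F 3) 0 0 := rfl
    rw [hp]
    simp only [LinearMap.add_apply, LinearMap.sub_apply, LinearMap.neg_apply, Module.End.one_apply, map_add, Pi.add_apply, Pi.sub_apply, Pi.neg_apply]
    simp only [phC, Fin.isValue, Fin.coe_ofNat_eq_mod, Nat.reduceMod, Int.cast_one, Int.cast_zero, m1, zero_mul,
      one_mul, add_zero, zero_add, neg_mul]
    ring
  | 1 =>
    have hS : Sp (1 : Fin 6).val = {(0, 1, 0), (0, 0, 1)} := rfl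
    have e : ∀ f : Fin 9, ∑ t ∈ Sp (1 : Fin 6).val, ((phC (1 : Fin 6).val f.val t.2.1 t.2.2 : ℤ) : ZMod 3) *
        ((mon t : Module.End (ZMod 3) (Fn3 (3 ^ r) (3 ^ s))) (F f)) 0 0 =
        ((phC 1 f.val 1 0 : ℤ) : ZMod 3) * ((dX : Module.End (ZMod 3) (Fn3 (3 ^ r) (3 ^ s))) (F f)) 0 0 +
        (((phC 1 f.val 0 1 : ℤ) : ZMod 3) * ((dY : Module.End (ZMod 3) (Fn3 (3 ^ r) (3 ^ s))) (F f)) 0 0) := by
      intro f
      rw [hS, Finset.sum_insert (by decide), Finset.sum_singleton, m10, m01]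
      rfl
    rw [Finset.sum_congr rfl fun f _ => e f, sum9]
    have hp : (phT (1 : Fin 6).val F) 0 0 = (dX - dY : Module.End (ZMod 3) (Fn3 (3 ^ r) (3 ^ s))) (F 1 + F 2 + F 3 + F 4) 0 0 := rfl
    rw [hp]
    simp only [LinearMap.add_apply, LinearMap.sub_apply, LinearMap.neg_apply, Module.End.one_apply, map_add, Pi.add_apply, Pi.sub_apply, Pi.neg_apply]
    simp only [phC, Fin.isValue, Fin.coe_ofNat_eq_mod, Nat.reduceMod, Int.cast_one, Int.cast_zero, m1, zero_mul,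
      one_mul, add_zero, zero_add, neg_mul]
    ring
  | 2 =>
    have hS : Sp (2 : Fin 6).val = {(0, 1, 0), (0, 0, 1)} := rfl
    have e : ∀ f : Fin 9, ∑ t ∈ Sp (2 : Fin 6).val, ((phC (2 : Fin 6).val f.val t.2.1 t.2.2 : ℤ) : ZMod 3) *
        ((mon t : Module.End (ZMod 3) (Fn3 (3 ^ r) (3 ^ s))) (F f)) 0 0 =
        ((phC 2 f.val 1 0 : ℤ) : ZMod 3) * ((dX : Module.End (ZMod 3) (Fn3 (3 ^ r) (3 ^ s))) (F f)) 0 0 +
        (((phC 2 f.val 0 1 : ℤ) : ZMod 3) * ((dY : Module.End (ZMod 3) (Fn3 (3 ^ r) (3 ^ s))) (F f)) 0 0) := by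
      intro f
      rw [hS, Finset.sum_insert (by decide), Finset.sum_singleton, m10, m01]
      rfl
    rw [Finset.sum_congr rfl fun f _ => e f, sum9]
    have hp : (phT (2 : Fin 6).val F) 0 0 = -((dX + dY : Module.End (ZMod 3) (Fn3 (3 ^ r) (3 ^ s))) (F 1 + F 4) 0 0) -
        (dY : Module.End (ZMod 3) (Fn3 (3 ^ r) (3 ^ s))) (F 5 + F 6) 0 0 := rfl
    rw [hp]
    simp only [LinearMap.add_apply, LinearMap.sub_apply, LinearMap.neg_apply, Module.End.one_apply, map_add, Pi.add_apply, Pi.sub_apply, Pi.neg_apply]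
    simp only [phC, Fin.isValue, Fin.coe_ofNat_eq_mod, Nat.reduceMod, Int.cast_one, Int.cast_zero, m1, zero_mul,
      one_mul, add_zero, zero_add, neg_mul]
    ring
  | 3 =>
    have hS : Sp (3 : Fin 6).val = {(0, 3, 0), (0, 2, 1), (0, 1, 2), (0, 0, 3)} := rfl
    have e : ∀ f : Fin 9, ∑ t ∈ Sp (3 : Fin 6).val, ((phC (3 : Fin 6).val f.val t.2.1 t.2.2 : ℤ) : ZMod 3) *
        ((mon t : Module.End (ZMod 3) (Fn3 (3 ^ r) (3 ^ s))) (F f)) 0 0 =
        ((phC 3 f.val 3 0 : ℤ) : ZMod 3) * ((dX ^ 3 : Module.End (ZMod 3) (Fn3 (3 ^ r) (3 ^ s))) (F f)) 0 0 +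
        (((phC 3 f.val 2 1 : ℤ) : ZMod 3) * ((dX ^ 2 * dY : Module.End (ZMod 3) (Fn3 (3 ^ r) (3 ^ s))) (F f)) 0 0 +
        (((phC 3 f.val 1 2 : ℤ) : ZMod 3) * ((dX * dY ^ 2 : Module.End (ZMod 3) (Fn3 (3 ^ r) (3 ^ s))) (F f)) 0 0 +
        (((phC 3 f.val 0 3 : ℤ) : ZMod 3) * ((dY ^ 3 : Module.End (ZMod 3) (Fn3 (3 ^ r) (3 ^ s))) (F f)) 0 0))) := by
      intro f
      rw [hS, Finset.sum_insert (by decide), Finset.sum_insert (by decide), Finset.sum_insert (by decide), Finset.sum_singleton, m30, m21, m12, m03]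
      rfl
    rw [Finset.sum_congr rfl fun f _ => e f, sum9]
    have hp : (phT (3 : Fin 6).val F) 0 0 = (dX ^ 3 - dX ^ 2 * dY + dX * dY ^ 2 : Module.End (ZMod 3) (Fn3 (3 ^ r) (3 ^ s))) (F 1 + F 4) 0 0 +
        (-dX ^ 3 - dX ^ 2 * dY + dX * dY ^ 2 + dY ^ 3 : Module.End (ZMod 3) (Fn3 (3 ^ r) (3 ^ s))) (F 2 + F 3) 0 0 +
        (dX ^ 2 * dY - dX * dY ^ 2 - dY ^ 3 : Module.End (ZMod 3) (Fn3 (3 ^ r) (3 ^ s))) (F 5 + F 6) 0 0 := rfl
    rw [hp]
    simp only [LinearMap.add_apply, LinearMap.sub_apply, LinearMap.neg_apply, Module.End.one_apply, map_add, Pi.add_apply, Pi.sub_apply, Pi.neg_apply]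
    simp only [phC, Fin.isValue, Fin.coe_ofNat_eq_mod, Nat.reduceMod, Int.cast_one, Int.cast_zero, m1, zero_mul,
      one_mul, add_zero, zero_add, neg_mul]
    ring
  | 4 =>
    have hS : Sp (4 : Fin 6).val = {(0, 0, 0)} := rfl
    have e : ∀ f : Fin 9, ∑ t ∈ Sp (4 : Fin 6).val, ((phC (4 : Fin 6).val f.val t.2.1 t.2.2 : ℤ) : ZMod 3) *
        ((mon t : Module.End (ZMod 3) (Fn3 (3 ^ r) (3 ^ s))) (F f)) 0 0 =
        ((phC 4 f.val 0 0 : ℤ) : ZMod 3) * ((1 : Module.End (ZMod 3) (Fn3 (3 ^ r) (3 ^ s))) (F f)) 0 0 := by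
      intro f
      rw [hS, Finset.sum_singleton, m00]
      rfl
    rw [Finset.sum_congr rfl fun f _ => e f, sum9]
    have hp : (phT (4 : Fin 6).val F) 0 0 = (F 0 - F 1 - F 2 - F 4 - F 5) 0 0 := rfl
    rw [hp]
    simp only [LinearMap.add_apply, LinearMap.sub_apply, LinearMap.neg_apply, Module.End.one_apply, map_add, Pi.add_apply, Pi.sub_apply, Pi.neg_apply]
    simp only [phC, Fin.isValue, Fin.coe_ofNat_eq_mod, Nat.reduceMod, Int.cast_one, Int.cast_zero, m1, zero_mul,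
      one_mul, add_zero, zero_add, neg_mul]
    ring
  | 5 =>
    have hS : Sp (5 : Fin 6).val = {(0, 0, 0)} := rfl
    have e : ∀ f : Fin 9, ∑ t ∈ Sp (5 : Fin 6).val, ((phC (5 : Fin 6).val f.val t.2.1 t.2.2 : ℤ) : ZMod 3) *
        ((mon t : Module.End (ZMod 3) (Fn3 (3 ^ r) (3 ^ s))) (F f)) 0 0 =
        ((phC 5 f.val 0 0 : ℤ) : ZMod 3) * ((1 : Module.End (ZMod 3) (Fn3 (3 ^ r) (3 ^ s))) (F f)) 0 0 := by
      intro f
      rw [hS, Finset.sum_singleton, m00]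
      rfl
    rw [Finset.sum_congr rfl fun f _ => e f, sum9]
    have hp : (phT (5 : Fin 6).val F) 0 0 = (F 1 + F 2 - F 3 + F 4) 0 0 := rfl
    rw [hp]
    simp only [LinearMap.add_apply, LinearMap.sub_apply, LinearMap.neg_apply, Module.End.one_apply, map_add, Pi.add_apply, Pi.sub_apply, Pi.neg_apply]
    simp only [phC, Fin.isValue, Fin.coe_ofNat_eq_mod, Nat.reduceMod, Int.cast_one, Int.cast_zero, m1, zero_mul,
      one_mul, add_zero, zero_add, neg_mul]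
    ring

end final

/-- Module LDP. -/
theorem hLdP (ht : S3Trm) (hl : S3Low0) (he : S3Exp) (h1 : S3Lw1) (hs : TSpl) (hr : TRll) (hg : TCeG)
    (hc : TCeP) : TLdP := by
  intro r s c F hR hF
  have ha : aT c.val ≤ 3 := (by decide : ∀ c : Fin 6, aT c.val ≤ 3) c
  rw [sum_BPT ht hr hg F hR c, Finset.sum_apply, Finset.sum_apply]
  rw [← fin_all c F]
  refine Finset.sum_congr rfl fun f _ => ?_
  obtain ⟨e, p1, p2⟩ := hs r s (BPT c f) (gd_BPT hg c f)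
  have hN := (h1 r s).2.2.2.2.2.2
  have e2 : (opL (BPT c f) (F f)) 0 0 = (opL (pA (BPT c f)) (F f)) 0 0 + (opL (pB (BPT c f)) (F f)) 0 0 := by
    rw [e, ← hN (opL (pB (BPT c f)) (F f))]
    rfl
  rw [e2, val he _ p1 (aT c.val) (by omega) (F f) (hF f), val he _ p2 (aT c.val) (by omega) (F f) (hF f),
    ← Finset.sum_add_distrib]
  have e3 : ∑ t ∈ Sp c.val, ((phC c.val f.val t.2.1 t.2.2 : ℤ) : ZMod 3) * (mon t (F f)) 0 0 =
      ∑ t ∈ M5, (if t.1 = 0 then ((phC c.val f.val t.2.1 t.2.2 : ℤ) : ZMod 3) else 0) * (mon t (F f)) 0 0 := by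
    rw [← Finset.sum_subset (sp_sub c)]
    · refine Finset.sum_congr rfl fun t htS => ?_
      have : t.1 = 0 := by
        have hh : ∀ c : Fin 6, ∀ t ∈ Sp c.val, t.1 = 0 := by decide +kernel
        exact hh c t htS
      rw [if_pos this]
    · intro t htM htS
      by_cases h0 : t.1 = 0
      · rw [if_pos h0, sp_zero c f t htM htS h0, Int.cast_zero, zero_mul]
      · rw [if_neg h0, zero_mul]
  rw [e3]
  refine Finset.sum_congr rfl fun t htM => ?_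
  obtain ⟨i, j, k⟩ := t
  rcases Nat.eq_zero_or_pos i with h0 | h0
  · subst h0
    by_cases hjk : j + k ≤ aT c.val
    · have := cast3 (hc c f j (Finset.mem_range.2 (by omega)) k (Finset.mem_range.2 (by omega)) hjk)
      push_cast at this
      rw [if_pos rfl, ← add_mul]
      change (((sS (pA (BPT c f)) 0 j k : ℤ) : ZMod 3) + ((sS (pB (BPT c f)) 0 j k : ℤ) : ZMod 3)) * _ =
        ((phC c.val f.val j k : ℤ) : ZMod 3) * _
      rw [this]
    · rw [mon_big (aT c.val) (F f) (hF f) j k (by omega)]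
      change _ * (0 : ZMod 3) + _ * (0 : ZMod 3) = _ * (0 : ZMod 3)
      rw [mul_zero, mul_zero, mul_zero, add_zero]
  · obtain ⟨n, rfl⟩ : ∃ n, i = n + 1 := ⟨i - 1, by omega⟩
    rw [mon_succ, mul_zero, mul_zero, mul_zero, add_zero]

end Pool.Agent.Helper45.T53
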